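import Mathlib

/-!
# Automorphy of representations of Weil groups: definitions
-/

set_option autoImplicit false

namespace Pool.Agent.Q63.FL

variable {W C V : Type} [Group W] [Group C] [AddCommGroup V] [Module ℂ V]

/-- The subspace `U` of `V` is stable under the group `H` and under the group `C`. -/
def Stable (r : Representation ℂ W V) (c : Representation ℂ C V) (H : Subgroup W)
    (U : Submodule ℂ V) : Prop :=
  (∀ h ∈ H, ∀ u ∈ U, r h u ∈ U) ∧ ∀ k, ∀ u ∈ U, c k u ∈ U

/-- `U` is an irreducible representation of `H × C`. -/
def Irr (r : Representation ℂ W V) (c : Representation ℂ C V) (H : Subgroup W)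
    (U : Submodule ℂ V) : Prop :=
  Stable r c H U ∧ U ≠ ⊥ ∧ ∀ U', U' ≤ U → Stable r c H U' → U' = ⊥ ∨ U' = U

/-- The representation `U` of `H × C` is induced by the representation `U₀` of `M × C`: it is the
direct sum of the translates of `U₀` (`M` is a normal subgroup of `H` here). -/
def IsInduced (r : Representation ℂ W V) (M H : Subgroup W) (U₀ U : Submodule ℂ V) : Prop :=
  ⨆ h ∈ H, U₀.map (r h) = U ∧ Disjoint U₀ (⨆ h ∈ (H : Set W) \ M, U₀.map (r h))

/-- The known theorems on automorphy. Here `W` is the Weil group of a number field `K` and `C` is
`GL₂(ℂ)` or the trivial group, `H` runs through the subgroups of finite index of `W` which contain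
the Weil group `A` of a Galois extension `K'` of `K`, `K_H` is the field of `H` and
`f` is a fixed modular form (if `C = GL₂(ℂ)`); `aut H U` says that the representation `U` of `H × C` is
automorphic: there is an isobaric automorphic representation of the general linear group over
`K_H` whose Satake class is the class of `(Frob_v, F_v)` on `U` for almost all `v`, where `F_v` is the
Satake class of the base change of `f`. -/
structure IsAutomorphy (r : Representation ℂ W V) (c : Representation ℂ C V) (A : Subgroup W)
    (aut : Subgroup W → Submodule ℂ V → Prop) : Prop where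
  /-- `H` acts on `U` by a character, so `U` is irreducible for `C`: class field theory and
  symmetric power functoriality (Newton, Thorne), with solvable base change -/
  base : ∀ H U, A ≤ H → Irr r c H U → (∀ h ∈ H, ∃ z : ℂ, ∀ u ∈ U, r h u = z • u) → aut H U
  /-- automorphic induction from a cyclic extension of prime degree (Arthur, Clozel) -/
  induction : ∀ H M U U₀, A ≤ M → M ≤ H → (∀ h ∈ H, ∀ m ∈ M, h * m * h⁻¹ ∈ M) →
    (M.relIndex H).Prime → Stable r c M U₀ → Stable r c H U → IsInduced r M H U₀ U →
    aut M U₀ → aut H U
  /-- isobaric sums -/
  sum : ∀ H U U', aut H U → aut H U' → Disjoint U U' → aut H (U ⊔ U')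

end Pool.Agent.Q63.FL
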