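import Mathlib
import Pool.Agent.Q63.FL.Defs

set_option autoImplicit false

namespace Pool.Agent.Q63.FL

/-- a maximal subgroup of a finite nilpotent group has prime index -/
lemma index_prime {G : Type} [Group G] [Finite G] [hn : Group.IsNilpotent G] {M : Subgroup G}
    (hM : IsCoatom M) : M.Normal ∧ M.index.Prime := by
  have hnorm : M.Normal :=
    Subgroup.NormalizerCondition.normal_of_coatom M Group.normalizerCondition_of_isNilpotent hM
  refine ⟨hnorm, ?_⟩
  have hnt : Nontrivial (G ⧸ M) := by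
    rw [QuotientGroup.nontrivial_iff]
    exact hM.1
  have key : ∀ N : Subgroup (G ⧸ M), N = ⊥ ∨ N = ⊤ := by
    intro N
    have hle : M ≤ N.comap (QuotientGroup.mk' M) := by
      intro m hm
      rw [Subgroup.mem_comap]
      have : QuotientGroup.mk' M m = 1 := by
        simpa using hm
      rw [this]
      exact N.one_mem
    rcases eq_or_lt_of_le hle with h | h
    · left
      rw [eq_bot_iff]
      intro x hx
      obtain ⟨g, rfl⟩ := QuotientGroup.mk'_surjective M x
      have : g ∈ M := by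
        rw [h]
        exact hx
      simpa using this
    · right
      have := hM.2 _ h
      rw [eq_top_iff]
      intro x _
      obtain ⟨g, rfl⟩ := QuotientGroup.mk'_surjective M x
      have hg : g ∈ N.comap (QuotientGroup.mk' M) := by rw [this]; trivial
      exact hg
  have : IsSimpleGroup (G ⧸ M) := ⟨fun N _ => key N⟩
  have hcen : Subgroup.center (G ⧸ M) = ⊤ := by
    rcases key (Subgroup.center (G ⧸ M)) with h | h
    · exfalso
      exact Group.IsNilpotent.center_ne_bot _ h
    · exact h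
  let _ : CommGroup (G ⧸ M) := Group.commGroupOfCenterEqTop hcen
  have := IsSimpleGroup.prime_card (α := G ⧸ M)
  rw [Subgroup.index]
  exact this

variable {W : Type} [Group W]

lemma exists_max {A S H : Subgroup W} [A.Normal] [Finite (W ⧸ A)] [Group.IsNilpotent (W ⧸ A)]
    (hAS : A ≤ S) (hSH : S ≤ H) (hne : S ≠ H) :
    ∃ M, S ≤ M ∧ M ≤ H ∧ M ≠ H ∧ (∀ h ∈ H, ∀ m ∈ M, h * m * h⁻¹ ∈ M) ∧
      (M.relIndex H).Prime := by
  let f := QuotientGroup.mk' A
  have hcS : (S.map f).comap f = S := by
    rw [Subgroup.comap_map_eq_self]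
    rw [QuotientGroup.ker_mk']
    exact hAS
  have hcH : (H.map f).comap f = H := by
    rw [Subgroup.comap_map_eq_self]
    rw [QuotientGroup.ker_mk']
    exact hAS.trans hSH
  let K := H.map f
  have hS' : (S.map f).subgroupOf K ≠ ⊤ := by
    intro h
    rw [Subgroup.subgroupOf_eq_top] at h
    apply hne
    apply le_antisymm hSH
    rw [← hcS, ← hcH]
    exact Subgroup.comap_mono h
  obtain ⟨M, hM, hSM⟩ := (eq_top_or_exists_le_coatom ((S.map f).subgroupOf K)).resolve_left hS'
  obtain ⟨hnorm, hprime⟩ := index_prime hM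
  let X := M.map K.subtype
  have hXK : X ≤ K := Subgroup.map_subtype_le M
  have hXM : X.subgroupOf K = M := by
    show (M.map K.subtype).comap K.subtype = M
    exact Subgroup.comap_map_eq_self_of_injective K.subtype_injective M
  refine ⟨X.comap f, ?_, ?_, ?_, ?_, ?_⟩
  · intro s hs
    rw [Subgroup.mem_comap]
    refine ⟨⟨f s, Subgroup.mem_map_of_mem f (hSH hs)⟩, hSM ?_, rfl⟩
    rw [Subgroup.mem_subgroupOf]
    exact Subgroup.mem_map_of_mem f hs
  · rw [← hcH]
    exact Subgroup.comap_mono hXK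
  · intro h
    have h2 : X = K := by
      have := congrArg (Subgroup.map f) h
      rwa [Subgroup.map_comap_eq_self_of_surjective (QuotientGroup.mk'_surjective A)] at this
    apply hM.1
    rw [← hXM, h2]
    exact Subgroup.subgroupOf_self K
  · intro h hh m hm
    rw [Subgroup.mem_comap] at hm ⊢
    have hfm : f m ∈ K := hXK hm
    have h3 : (⟨f m, hfm⟩ : K) ∈ M := by
      rw [← hXM, Subgroup.mem_subgroupOf]
      exact hm
    have h4 := hnorm.conj_mem _ h3 ⟨f h, Subgroup.mem_map_of_mem f hh⟩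
    rw [← hXM, Subgroup.mem_subgroupOf] at h4
    simpa using h4
  · rw [Subgroup.relIndex_comap]
    show (X.subgroupOf K).index.Prime
    rw [hXM]
    exact hprime

lemma exists_b {A Z H : Subgroup W} [A.Normal] [Group.IsNilpotent (W ⧸ A)]
    (hAZ : A ≤ Z) (hne : ¬ H ≤ Z) :
    ∃ b ∈ H, b ∉ Z ∧ ∀ h ∈ H, b * h * b⁻¹ * h⁻¹ ∈ Z := by
  obtain ⟨n, hn⟩ := (Subgroup.nilpotent_iff_lowerCentralSeries (G := W ⧸ A)).1 inferInstance
  have h1 : H.lowerCentralSeries n ≤ Z := by
    refine le_trans ?_ hAZ
    have h2 : (H.lowerCentralSeries n).map (QuotientGroup.mk' A) ≤ ⊥ := by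
      rw [← hn]
      rw [Subgroup.map_lowerCentralSeries]
      exact Subgroup.lowerCentralSeries_mono n le_top
    intro x hx
    have := h2 (Subgroup.mem_map_of_mem _ hx)
    rw [Subgroup.mem_bot] at this
    simpa using this
  classical
  let k := Nat.find (⟨n, h1⟩ : ∃ n, H.lowerCentralSeries n ≤ Z)
  have hk : H.lowerCentralSeries k ≤ Z := Nat.find_spec (⟨n, h1⟩ : ∃ n, H.lowerCentralSeries n ≤ Z)
  have hk0 : k ≠ 0 := by
    intro h0
    apply hne
    have := hk
    rw [h0] at this
    simpa using this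
  obtain ⟨j, hj⟩ := Nat.exists_eq_succ_of_ne_zero hk0
  have hj2 : ¬ H.lowerCentralSeries j ≤ Z := Nat.find_min (⟨n, h1⟩ : ∃ n, H.lowerCentralSeries n ≤ Z)
    (by show j < k; omega)
  obtain ⟨b, hb, hbZ⟩ := Set.not_subset.1 hj2
  refine ⟨b, Subgroup.lowerCentralSeries_le_self H j hb, hbZ, fun h hh => ?_⟩
  apply hk
  rw [hj, Nat.succ_eq_add_one, Subgroup.lowerCentralSeries_succ]
  exact Subgroup.commutator_mem_commutator hb hh

end Pool.Agent.Q63.FL
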