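import Mathlib
import Pool.Agent.Q63.FL.Grp

set_option autoImplicit false

namespace Pool.Agent.Q63.FL

variable {W C V : Type} [Group W] [Group C] [AddCommGroup V] [Module ℂ V] [FiniteDimensional ℂ V]
  {r : Representation ℂ W V} {c : Representation ℂ C V}

lemma map_mul_rep (a b : W) (U : Submodule ℂ V) : U.map (r (a * b)) = (U.map (r b)).map (r a) := by
  rw [map_mul, ← Submodule.map_comp]
  rfl

lemma map_one_rep (U : Submodule ℂ V) : U.map (r 1) = U := by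
  rw [map_one]
  exact Submodule.map_id U

lemma map_ne_bot {a : W} {U : Submodule ℂ V} (hU : U ≠ ⊥) : U.map (r a) ≠ ⊥ := by
  intro h
  apply hU
  have := map_mul_rep (r := r) a⁻¹ a U
  rw [h, Submodule.map_bot, inv_mul_cancel, map_one_rep] at this
  exact this

lemma inv_apply (a : W) (v : V) : r a (r a⁻¹ v) = v := by
  rw [← Module.End.mul_apply, ← map_mul, mul_inv_cancel, map_one]
  rfl

lemma inv_apply' (a : W) (v : V) : r a⁻¹ (r a v) = v := by
  rw [← Module.End.mul_apply, ← map_mul, inv_mul_cancel, map_one]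
  rfl

lemma mul_ap (a b : W) (v : V) : r (a * b) v = r a (r b v) := by
  rw [map_mul]
  rfl

/-- the main step: a system of imprimitivity -/
lemma step (hcomm : ∀ w k, Commute (r w) (c k)) {A H : Subgroup W} [A.Normal] [Finite (W ⧸ A)]
    [Group.IsNilpotent (W ⧸ A)] (hAH : A ≤ H) {U : Submodule ℂ V} (hU : Irr r c H U)
    {I : Type} {E : I → Submodule ℂ V} (hE : iSupIndep E) {act : W → I → I}
    (hact : ∀ h ∈ H, ∀ i, ∀ u ∈ U ⊓ E i, r h u ∈ E (act h i))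
    (hinv : ∀ h ∈ H, ∀ i, act h⁻¹ (act h i) = i) {i0 : I} (hne : U ⊓ E i0 ≠ ⊥)
    (hne' : U ⊓ E i0 ≠ U) (hC : ∀ k, ∀ u ∈ U ⊓ E i0, c k u ∈ E i0)
    (hA : ∀ a ∈ A, ∀ u ∈ U ⊓ E i0, r a u ∈ E i0) :
    ∃ M U₀, A ≤ M ∧ M ≤ H ∧ (∀ h ∈ H, ∀ m ∈ M, h * m * h⁻¹ ∈ M) ∧ (M.relIndex H).Prime ∧
      IsInduced r M H U₀ U ∧ Irr r c M U₀ ∧ Module.finrank ℂ U₀ < Module.finrank ℂ U := by
  obtain ⟨⟨hUH, hUC⟩, hU0, hUirr⟩ := hU
  set U₁ := U ⊓ E i0 with hU₁
  have hmapE : ∀ h ∈ H, ∀ i, (U ⊓ E i).map (r h) = U ⊓ E (act h i) := by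
    intro h hh i
    apply le_antisymm
    · rintro _ ⟨u, hu, rfl⟩
      exact ⟨hUH h hh u hu.1, hact h hh i u hu⟩
    · intro x hx
      refine ⟨r h⁻¹ x, ⟨hUH _ (H.inv_mem hh) x hx.1, ?_⟩, inv_apply h x⟩
      have := hact h⁻¹ (H.inv_mem hh) (act h i) x hx
      rwa [hinv h hh i] at this
  let S : Subgroup W :=
    { carrier := {h | h ∈ H ∧ U₁.map (r h) = U₁}
      mul_mem' := by
        rintro a b ⟨ha, ha'⟩ ⟨hb, hb'⟩
        exact ⟨H.mul_mem ha hb, by rw [map_mul_rep, hb', ha']⟩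
      one_mem' := ⟨H.one_mem, map_one_rep _⟩
      inv_mem' := by
        rintro a ⟨ha, ha'⟩
        refine ⟨H.inv_mem ha, ?_⟩
        conv_lhs => rw [← ha']
        rw [← map_mul_rep, inv_mul_cancel, map_one_rep] }
  have hAS : A ≤ S := by
    intro a ha
    refine ⟨hAH ha, le_antisymm ?_ ?_⟩
    · rintro _ ⟨u, hu, rfl⟩
      exact ⟨hUH a (hAH ha) u hu.1, hA a ha u hu⟩
    · intro x hx
      exact ⟨r a⁻¹ x, ⟨hUH _ (H.inv_mem (hAH ha)) x hx.1, hA _ (A.inv_mem ha) x hx⟩, inv_apply a x⟩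
  have hSH : S ≤ H := fun a ha => ha.1
  have hU₁C : ∀ k, ∀ u ∈ U₁, c k u ∈ U₁ := fun k u hu => ⟨hUC k u hu.1, hC k u hu⟩
  have hSne : S ≠ H := by
    intro hSH'
    have hst : Stable r c H U₁ := by
      refine ⟨fun h hh u hu => ?_, hU₁C⟩
      rw [← hSH'] at hh
      rw [← hh.2]
      exact ⟨u, hu, rfl⟩
    rcases hUirr U₁ inf_le_left hst with h | h
    · exact hne h
    · exact hne' h
  obtain ⟨M, hSM, hMH, hMne, hMn, hMp⟩ := exists_max hAS hSH hSne
  -- the subspace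
  let U₀ : Submodule ℂ V := ⨆ m ∈ M, U₁.map (r m)
  have hU₁₀ : U₁ ≤ U₀ := by
    have : U₁.map (r 1) ≤ U₀ := le_iSup₂_of_le 1 M.one_mem le_rfl
    rwa [map_one_rep] at this
  have hU₀U : U₀ ≤ U := by
    refine iSup₂_le fun m hm => ?_
    rintro _ ⟨u, hu, rfl⟩
    exact hUH m (hMH hm) u hu.1
  have hmapsup : ∀ (g : W) (X : Set W) (T : Submodule ℂ V),
      (⨆ m ∈ X, T.map (r m)).map (r g) = ⨆ m ∈ X, T.map (r (g * m)) := by
    intro g X T
    rw [Submodule.map_iSup]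
    congr 1
    funext m
    rw [Submodule.map_iSup]
    congr 1
    funext hm
    rw [map_mul_rep]
  have hstC : ∀ (X : Set W) (T : Submodule ℂ V), (∀ k, ∀ u ∈ T, c k u ∈ T) →
      ∀ k, ∀ u ∈ (⨆ m ∈ X, T.map (r m)), c k u ∈ (⨆ m ∈ X, T.map (r m)) := by
    intro X T hT k u hu
    have : (⨆ m ∈ X, T.map (r m)).map (c k) ≤ ⨆ m ∈ X, T.map (r m) := by
      rw [Submodule.map_iSup]
      refine iSup_le fun m => ?_
      rw [Submodule.map_iSup]
      refine iSup_le fun hm => ?_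
      refine le_trans ?_ (le_iSup₂_of_le m hm le_rfl)
      rintro _ ⟨_, ⟨t, ht, rfl⟩, rfl⟩
      refine ⟨c k t, hT k t ht, ?_⟩
      have := congrArg (fun f : V →ₗ[ℂ] V => f t) (hcomm m k).eq
      exact this
    exact this ⟨u, hu, rfl⟩
  have hstM : Stable r c M U₀ := by
    refine ⟨fun m hm u hu => ?_, hstC M U₁ hU₁C⟩
    have : U₀.map (r m) ≤ U₀ := by
      show (⨆ m' ∈ (M : Set W), U₁.map (r m')).map (r m) ≤ _
      rw [hmapsup]
      refine iSup₂_le fun m' hm' => ?_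
      exact le_iSup₂_of_le (m * m') (M.mul_mem hm hm') le_rfl
    exact this ⟨u, hu, rfl⟩
  -- the translates by the elements of `H`
  have htop : ∀ T : Submodule ℂ V, T ≤ U → T ≠ ⊥ → (∀ k, ∀ u ∈ T, c k u ∈ T) →
      ⨆ h ∈ H, T.map (r h) = U := by
    intro T hTU hT0 hTC
    have hst : Stable r c H (⨆ h ∈ H, T.map (r h)) := by
      refine ⟨fun h hh u hu => ?_, hstC H T hTC⟩
      have : (⨆ h' ∈ H, T.map (r h')).map (r h) ≤ ⨆ h' ∈ H, T.map (r h') := by
        show (⨆ h' ∈ (H : Set W), T.map (r h')).map (r h) ≤ _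
        rw [hmapsup]
        exact iSup₂_le fun m' hm' => le_iSup₂_of_le (h * m') (H.mul_mem hh hm') le_rfl
      exact this ⟨u, hu, rfl⟩
    have hle : ⨆ h ∈ H, T.map (r h) ≤ U := by
      refine iSup₂_le fun m hm => ?_
      rintro _ ⟨u, hu, rfl⟩
      exact hUH m hm u (hTU hu)
    rcases hUirr _ hle hst with h | h
    · exfalso
      apply hT0
      rw [eq_bot_iff, ← h]
      have : T.map (r 1) ≤ ⨆ h ∈ H, T.map (r h) := le_iSup₂_of_le 1 H.one_mem le_rfl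
      rwa [map_one_rep] at this
    · exact h
  have hU₀0 : U₀ ≠ ⊥ := fun h => hne (by rw [eq_bot_iff, ← h]; exact hU₁₀)
  have hsep : ∀ h ∈ H, ∀ m ∈ M, act h i0 = act m i0 → h ∈ M := by
    intro h hh m hm heq
    have h1 : U₁.map (r h) = U₁.map (r m) := by
      rw [hU₁, hmapE h hh, hmapE m (hMH hm), heq]
    have h2 : m⁻¹ * h ∈ S := by
      refine ⟨H.mul_mem (H.inv_mem (hMH hm)) hh, ?_⟩
      rw [map_mul_rep, h1, ← map_mul_rep, inv_mul_cancel, map_one_rep]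
    have h3 := M.mul_mem hm (hSM h2)
    rwa [mul_inv_cancel_left] at h3
  have hdisj : Disjoint U₀ (⨆ h ∈ (H : Set W) \ M, U₀.map (r h)) := by
    have hst0 : Disjoint ((fun m => act m i0) '' (M : Set W))
        ((fun m => act m i0) '' ((H : Set W) \ M)) := by
      rw [Set.disjoint_left]
      rintro _ ⟨m, hm, rfl⟩ ⟨h, ⟨hh, hhM⟩, heq⟩
      exact hhM (hsep h hh m hm heq)
    have hd := hE.disjoint_biSup_biSup hst0
    refine hd.mono ?_ ?_
    · refine iSup₂_le fun m hm => ?_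
      refine le_trans ?_ (le_iSup₂_of_le (act m i0) ⟨m, hm, rfl⟩ le_rfl)
      rw [hU₁, hmapE m (hMH hm)]
      exact inf_le_right
    · refine iSup₂_le fun h hh => ?_
      show (⨆ m' ∈ (M : Set W), U₁.map (r m')).map (r h) ≤ _
      rw [hmapsup]
      refine iSup₂_le fun m hm => ?_
      have hhm : h * m ∈ (H : Set W) \ M := by
        refine ⟨H.mul_mem hh.1 (hMH hm), fun hc => hh.2 ?_⟩
        have := M.mul_mem hc (M.inv_mem hm)
        rwa [mul_inv_cancel_right] at this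
      refine le_trans ?_ (le_iSup₂_of_le (act (h * m) i0) ⟨h * m, hhm, rfl⟩ le_rfl)
      rw [hU₁, hmapE _ hhm.1]
      exact inf_le_right
  have hind : IsInduced r M H U₀ U := ⟨htop U₀ hU₀U hU₀0 hstM.2, hdisj⟩
  refine ⟨M, U₀, hAS.trans hSM, hMH, hMn, hMp, hind, ⟨hstM, hU₀0, ?_⟩, ?_⟩
  · intro U' hU' hst'
    by_cases hb : U' = ⊥
    · exact Or.inl hb
    right
    apply le_antisymm hU'
    have h1 := htop U' (hU'.trans hU₀U) hb hst'.2
    have h2 : U ≤ U' ⊔ ⨆ h ∈ (H : Set W) \ M, U₀.map (r h) := by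
      rw [← h1]
      refine iSup₂_le fun h hh => ?_
      by_cases hhM : h ∈ M
      · refine le_trans ?_ le_sup_left
        rintro _ ⟨u, hu, rfl⟩
        exact hst'.1 h hhM u hu
      · refine le_trans ?_ le_sup_right
        exact (Submodule.map_mono hU').trans (le_iSup₂_of_le h ⟨hh, hhM⟩ le_rfl)
    intro x hx
    obtain ⟨y, hy, z, hz, hyz⟩ := Submodule.mem_sup.1 (h2 (hU₀U hx))
    have hz0 : z ∈ U₀ := by
      have : z = x - y := by rw [← hyz]; abel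
      rw [this]
      exact U₀.sub_mem hx (hU' hy)
    have := Submodule.disjoint_def.1 hdisj z hz0 hz
    rw [this, add_zero] at hyz
    rw [← hyz]
    exact hy
  · apply Submodule.finrank_lt_finrank_of_lt
    refine lt_of_le_of_ne hU₀U fun heq => ?_
    obtain ⟨h, hh, hhM⟩ := Set.not_subset.1 (fun hle : (H : Set W) ⊆ M =>
      hMne (le_antisymm hMH hle))
    have h1 : U₀.map (r h) ≤ ⨆ h ∈ (H : Set W) \ M, U₀.map (r h) :=
      le_iSup₂_of_le h ⟨hh, hhM⟩ le_rfl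
    have h2 : U₀.map (r h) ≤ U₀ := by
      rw [heq]
      rintro _ ⟨u, hu, rfl⟩
      exact hUH h hh u hu
    have h3 : U₀.map (r h) ≤ ⊥ := by
      have := hdisj (x := U₀.map (r h)) h2 h1
      exact this
    exact map_ne_bot hU₀0 (eq_bot_iff.2 h3)

end Pool.Agent.Q63.FL
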