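import Mathlib
import Pool.Agent.Q63.FL.Step

set_option autoImplicit false

namespace Pool.Agent.Q63.FL

variable {W C V : Type} [Group W] [Group C] [AddCommGroup V] [Module ℂ V] [FiniteDimensional ℂ V]
  {r : Representation ℂ W V} {c : Representation ℂ C V}

/-- an eigenvalue on a stable subspace -/
lemma exists_eig (f : V →ₗ[ℂ] V) {U : Submodule ℂ V} (hU : U ≠ ⊥) (hst : ∀ u ∈ U, f u ∈ U) :
    ∃ μ : ℂ, U ⊓ Module.End.eigenspace f μ ≠ ⊥ := by
  have : Nontrivial U := Submodule.nontrivial_iff_ne_bot.2 hU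
  let g : U →ₗ[ℂ] U := f.restrict hst
  obtain ⟨μ, hμ⟩ := Module.End.exists_eigenvalue g
  obtain ⟨v, hv⟩ := hμ.exists_hasEigenvector
  refine ⟨μ, fun h => ?_⟩
  have h1 : (v : V) ∈ U ⊓ Module.End.eigenspace f μ := by
    refine Submodule.mem_inf.2 ⟨v.2, ?_⟩
    rw [Module.End.mem_eigenspace_iff]
    have := hv.apply_eq_smul
    exact congrArg Subtype.val this
  rw [h, Submodule.mem_bot] at h1
  exact hv.2 (Subtype.ext h1)

/-- a common eigenvector -/
lemma exists_common {A : Subgroup W} (n : ℕ) : ∀ {U : Submodule ℂ V}, Module.finrank ℂ U ≤ n →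
    U ≠ ⊥ → (∀ a ∈ A, ∀ u ∈ U, r a u ∈ U) →
    (∀ a ∈ A, ∀ b ∈ A, ∀ v, r a (r b v) = r b (r a v)) →
    ∃ (χ : A → ℂ) (u : V), u ∈ U ∧ u ≠ 0 ∧ ∀ a : A, r a u = χ a • u := by
  induction n with
  | zero =>
    intro U hn hU
    exfalso
    apply hU
    rw [← Submodule.finrank_eq_zero (R := ℂ)]
    omega
  | succ n ih =>
    intro U hn hU hst hab
    by_cases hsc : ∀ a ∈ A, ∃ z : ℂ, ∀ u ∈ U, r a u = z • u
    · choose z hz using hsc
      obtain ⟨u, hu, hu0⟩ := U.ne_bot_iff.1 hU
      exact ⟨fun a => z a a.2, u, hu, hu0, fun a => hz a a.2 u hu⟩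
    · push Not at hsc
      obtain ⟨a, ha, hsc⟩ := hsc
      obtain ⟨μ, hμ⟩ := exists_eig (r a) hU (hst a ha)
      obtain ⟨u₀, hu₀, hne⟩ := hsc μ
      have hlt : Module.finrank ℂ (U ⊓ Module.End.eigenspace (r a) μ : Submodule ℂ V) <
          Module.finrank ℂ U := by
        apply Submodule.finrank_lt_finrank_of_lt
        refine lt_of_le_of_ne inf_le_left fun heq => hne ?_
        rw [← heq] at hu₀
        exact Module.End.mem_eigenspace_iff.1 hu₀.2
      obtain ⟨χ, u, hu, h0, h1⟩ := ih (by omega) hμ (by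
        rintro b hb u ⟨hu, hu'⟩
        refine Submodule.mem_inf.2 ⟨hst b hb u hu, ?_⟩
        rw [Module.End.mem_eigenspace_iff]
        rw [hab a ha b hb, Module.End.mem_eigenspace_iff.1 hu', map_smul]) hab
      exact ⟨χ, u, hu.1, h0, h1⟩

/-- the simultaneous eigenspaces of `A` -/
noncomputable def Eg (r : Representation ℂ W V) (A : Subgroup W) (ψ : A → ℂ) : Submodule ℂ V :=
  ⨅ a : A, Module.End.eigenspace (r a) (ψ a)

lemma mem_Eg {A : Subgroup W} {ψ : A → ℂ} {v : V} :
    v ∈ Eg r A ψ ↔ ∀ a : A, r a v = ψ a • v := by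
  simp only [Eg, Submodule.mem_iInf, Module.End.mem_eigenspace_iff]

lemma Eg_indep {A : Subgroup W} (hab : ∀ a ∈ A, ∀ b ∈ A, ∀ v, r a (r b v) = r b (r a v)) :
    iSupIndep (Eg r A) := by
  have h := Module.End.independent_iInf_maxGenEigenspace_of_forall_mapsTo
      (fun a : A => (r (a : W) : Module.End ℂ V)) (by
    intro a b φ
    apply Module.End.mapsTo_maxGenEigenspace_of_comm
    exact LinearMap.ext fun v => hab b b.2 a a.2 v)
  refine iSupIndep.mono h ?_
  intro ψ
  refine iInf_mono fun a => ?_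
  exact (Module.End.genEigenspace (r (a : W)) (ψ a)).mono le_top

/-- every irreducible representation is automorphic -/
lemma irr_aut (hcomm : ∀ w k, Commute (r w) (c k)) {A : Subgroup W} [A.Normal] [Finite (W ⧸ A)]
    [Group.IsNilpotent (W ⧸ A)] (hab : ∀ a ∈ A, ∀ b ∈ A, ∀ v, r a (r b v) = r b (r a v))
    {aut : Subgroup W → Submodule ℂ V → Prop} (hau : IsAutomorphy r c A aut) (n : ℕ) :
    ∀ {H : Subgroup W} {U : Submodule ℂ V}, A ≤ H → Irr r c H U → Module.finrank ℂ U ≤ n →
      aut H U := by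
  induction n with
  | zero =>
    intro H U _ hU hn
    exfalso
    apply hU.2.1
    rw [← Submodule.finrank_eq_zero (R := ℂ)]
    omega
  | succ n ih =>
    intro H U hAH hU hn
    have hUst := hU.1
    have hcomm' : ∀ w k v, r w (c k v) = c k (r w v) := fun w k v =>
      congrArg (fun f : V →ₗ[ℂ] V => f v) (hcomm w k).eq
    by_cases h1 : ∀ h ∈ H, ∃ z : ℂ, ∀ u ∈ U, r h u = z • u
    · exact hau.base H U hAH hU h1
    suffices hs : ∃ M U₀, A ≤ M ∧ M ≤ H ∧ (∀ h ∈ H, ∀ m ∈ M, h * m * h⁻¹ ∈ M) ∧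
        (M.relIndex H).Prime ∧ IsInduced r M H U₀ U ∧ Irr r c M U₀ ∧
        Module.finrank ℂ U₀ < Module.finrank ℂ U by
      obtain ⟨M, U₀, hAM, hMH, hMn, hMp, hind, hirr, hlt⟩ := hs
      exact hau.induction H M U U₀ hAM hMH hMn hMp hirr.1 hUst hind (ih hAM hirr (by omega))
    by_cases h2 : ∀ a ∈ A, ∃ z : ℂ, ∀ u ∈ U, r a u = z • u
    · -- `A` acts by scalars
      let Z : Subgroup W :=
        { carrier := {h | h ∈ H ∧ ∃ z : ℂ, ∀ u ∈ U, r h u = z • u}
          mul_mem' := by
            rintro x y ⟨hx, z, hz⟩ ⟨hy, z', hz'⟩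
            refine ⟨H.mul_mem hx hy, z * z', fun u hu => ?_⟩
            rw [mul_ap, hz' u hu, map_smul, hz u hu, smul_smul, mul_comm]
          one_mem' := ⟨H.one_mem, 1, fun u _ => by rw [map_one, one_smul]; rfl⟩
          inv_mem' := by
            rintro x ⟨hx, z, hz⟩
            refine ⟨H.inv_mem hx, z⁻¹, fun u hu => ?_⟩
            have h3 := hz (r x⁻¹ u) (hUst.1 _ (H.inv_mem hx) u hu)
            rw [inv_apply] at h3
            by_cases hz0 : z = 0
            · rw [hz0, zero_smul] at h3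
              rw [h3, map_zero, smul_zero]
            · rw [eq_inv_smul_iff₀ hz0]
              exact h3.symm }
      have hAZ : A ≤ Z := fun a ha => ⟨hAH ha, h2 a ha⟩
      have hHZ : ¬ H ≤ Z := fun hc => h1 fun h hh => (hc hh).2
      obtain ⟨b, hbH, hbZ, hb⟩ := exists_b hAZ hHZ
      have hν : ∀ h : W, ∃ z : ℂ, h ∈ H → ∀ u ∈ U, r (b * h * b⁻¹ * h⁻¹) u = z • u := by
        intro h
        by_cases hh : h ∈ H
        · obtain ⟨z, hz⟩ := (hb h hh).2
          exact ⟨z, fun _ => hz⟩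
        · exact ⟨0, fun hc => absurd hc hh⟩
      choose ν hν using hν
      have hrel : ∀ h ∈ H, ∀ u ∈ U, r b (r h u) = ν h • r h (r b u) := by
        intro h hh u hu
        rw [← hν h hh _ (hUst.1 h hh _ (hUst.1 b hbH u hu))]
        rw [← mul_ap, ← mul_ap, ← mul_ap]
        congr 2
        group
      have hνν : ∀ h ∈ H, ν h⁻¹ * ν h = 1 := by
        intro h hh
        obtain ⟨u, hu, hu0⟩ := U.ne_bot_iff.1 hU.2.1
        have h3 := hrel h⁻¹ (H.inv_mem hh) (r h u) (hUst.1 h hh u hu)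
        rw [inv_apply', hrel h hh u hu, map_smul, inv_apply', smul_smul] at h3
        have h4 : r b u ≠ 0 := by
          intro h5
          apply hu0
          rw [← inv_apply' (r := r) b u, h5, map_zero]
        have h6 : (1 - ν h⁻¹ * ν h) • r b u = 0 := by
          rw [sub_smul, one_smul, ← h3, sub_self]
        rcases smul_eq_zero.1 h6 with h7 | h7
        · linear_combination -h7
        · exact absurd h7 h4
      obtain ⟨μ, hμ⟩ := exists_eig (r b) hU.2.1 (hUst.1 b hbH)
      refine step hcomm hAH hU (Module.End.eigenspaces_iSupIndep (r b))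
        (act := fun h x => ν h * x) ?_ ?_ hμ ?_ ?_ ?_
      · intro h hh x u hu2
        obtain ⟨hu, hu'⟩ := Submodule.mem_inf.1 hu2
        rw [Module.End.mem_eigenspace_iff] at hu' ⊢
        rw [hrel h hh u hu, hu', map_smul, smul_smul]
      · intro h hh x
        show ν h⁻¹ * (ν h * x) = x
        rw [← mul_assoc, hνν h hh, one_mul]
      · intro heq
        apply hbZ
        refine ⟨hbH, μ, fun u hu => ?_⟩
        rw [← heq] at hu
        exact Module.End.mem_eigenspace_iff.1 hu.2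
      · intro k u hu2
        obtain ⟨hu, hu'⟩ := Submodule.mem_inf.1 hu2
        rw [Module.End.mem_eigenspace_iff] at hu' ⊢
        rw [hcomm', hu', map_smul]
      · rintro a ha u ⟨hu, hu'⟩
        obtain ⟨z, hz⟩ := h2 a ha
        rw [hz u hu]
        exact Submodule.smul_mem _ _ hu'
    · -- `A` does not act by scalars
      push Not at h2
      obtain ⟨a₀, ha₀, hns⟩ := h2
      obtain ⟨χ, u₁, hu₁, hu₁0, hχ⟩ := exists_common (r := r) (A := A) (Module.finrank ℂ U) le_rfl hU.2.1
        (fun a ha => hUst.1 a (hAH ha)) hab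
      have hAn : A.Normal := inferInstance
      have hconj : ∀ (h : W) (a : A), h⁻¹ * (a : W) * h ∈ A := by
        intro h a
        have := hAn.conj_mem a a.2 h⁻¹
        simpa using this
      refine step hcomm hAH hU (Eg_indep hab)
        (act := fun h ψ a => ψ ⟨h⁻¹ * (a : W) * h, hconj h a⟩) (i0 := χ) ?_ ?_ ?_ ?_ ?_ ?_
      · intro h hh ψ u hu2
        obtain ⟨hu, hu'⟩ := Submodule.mem_inf.1 hu2
        rw [mem_Eg] at hu' ⊢
        intro a
        have h3 := hu' ⟨h⁻¹ * (a : W) * h, hconj h a⟩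
        have h4 : r (a : W) (r h u) = r h (r (h⁻¹ * (a : W) * h) u) := by
          rw [← mul_ap, ← mul_ap]
          congr 2
          group
        rw [h4]
        dsimp only at h3 ⊢
        rw [h3, map_smul]
      · intro h hh ψ
        funext a
        dsimp only
        congr 1
        apply Subtype.ext
        dsimp only
        group
      · intro heq
        apply hu₁0
        have : u₁ ∈ U ⊓ Eg r A χ := Submodule.mem_inf.2 ⟨hu₁, mem_Eg.2 hχ⟩
        rwa [heq, Submodule.mem_bot] at this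
      · intro heq
        obtain ⟨u, hu, hne⟩ := hns (χ ⟨a₀, ha₀⟩)
        rw [← heq] at hu
        exact hne (mem_Eg.1 (Submodule.mem_inf.1 hu).2 ⟨a₀, ha₀⟩)
      · intro k u hu2
        obtain ⟨hu, hu'⟩ := Submodule.mem_inf.1 hu2
        rw [mem_Eg] at hu' ⊢
        intro a
        rw [hcomm', hu' a, map_smul]
      · intro b hb u hu2
        obtain ⟨hu, hu'⟩ := Submodule.mem_inf.1 hu2
        rw [mem_Eg] at hu' ⊢
        intro a
        rw [hab a a.2 b hb, hu' a, map_smul]

/-- every nonzero subrepresentation of a semisimple representation is automorphic -/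
lemma all_aut (hcomm : ∀ w k, Commute (r w) (c k)) {A : Subgroup W} [A.Normal] [Finite (W ⧸ A)]
    [Group.IsNilpotent (W ⧸ A)] (hab : ∀ a ∈ A, ∀ b ∈ A, ∀ v, r a (r b v) = r b (r a v))
    {aut : Subgroup W → Submodule ℂ V → Prop} (hau : IsAutomorphy r c A aut)
    (hss : ∀ U, Stable r c ⊤ U → ∃ U', Stable r c ⊤ U' ∧ IsCompl U U') (n : ℕ) :
    ∀ {U : Submodule ℂ V}, Module.finrank ℂ U ≤ n → Stable r c ⊤ U → U ≠ ⊥ → aut ⊤ U := by
  induction n with
  | zero =>
    intro U hn _ hU
    exfalso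
    apply hU
    rw [← Submodule.finrank_eq_zero (R := ℂ)]
    omega
  | succ n ih =>
    intro U hn hst hU
    by_cases hirr : Irr r c ⊤ U
    · exact irr_aut hcomm hab hau _ le_top hirr le_rfl
    · have h1 : ∃ U', U' ≤ U ∧ Stable r c ⊤ U' ∧ U' ≠ ⊥ ∧ U' ≠ U := by
        by_contra hcon
        push Not at hcon
        exact hirr ⟨hst, hU, fun U' h1 h2 => or_iff_not_imp_left.2 fun h3 => hcon U' h1 h2 h3⟩
      obtain ⟨U', hle, hst', h0, hne⟩ := h1
      obtain ⟨U'', hst'', hc⟩ := hss U' hst'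
      have hsup : U' ⊔ (U ⊓ U'') = U := by
        rw [inf_comm, ← sup_inf_assoc_of_le _ hle, hc.sup_eq_top, top_inf_eq]
      have hdis : Disjoint U' (U ⊓ U'') := hc.disjoint.mono_right inf_le_right
      have hst3 : Stable r c ⊤ (U ⊓ U'') :=
        ⟨fun h hh u hu => ⟨hst.1 h hh u hu.1, hst''.1 h hh u hu.2⟩,
          fun k u hu => ⟨hst.2 k u hu.1, hst''.2 k u hu.2⟩⟩
      have h30 : U ⊓ U'' ≠ ⊥ := by
        intro h
        rw [h, sup_bot_eq] at hsup
        exact hne hsup
      have hl1 : Module.finrank ℂ U' < Module.finrank ℂ U :=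
        Submodule.finrank_lt_finrank_of_lt (lt_of_le_of_ne hle hne)
      have hl2 : Module.finrank ℂ (U ⊓ U'' : Submodule ℂ V) < Module.finrank ℂ U := by
        apply Submodule.finrank_lt_finrank_of_lt
        refine lt_of_le_of_ne inf_le_left fun heq => h0 ?_
        have h2 := hc.disjoint
        rw [disjoint_iff] at h2
        rw [eq_bot_iff, ← h2]
        refine le_inf le_rfl (hle.trans ?_)
        rw [← heq]
        exact inf_le_right
      rw [← hsup]
      exact hau.sum ⊤ _ _ (ih (by omega) hst' h0) (ih (by omega) hst3 h30) hdis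

end Pool.Agent.Q63.FL
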